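import Mathlib

/-!
# Rings generated by elements with monic relations over a finite ring (helper file)
-/

set_option autoImplicit false

open MvPolynomial

namespace Pool.Agent.Q212.HD

variable {R k ι : Type*} [CommRing R] [CommRing k] [Algebra R k] [Fintype ι]

/-- the monomials -/
noncomputable def mo (z : ι → k) (a : ι → ℕ) : k := ∏ i, z i ^ a i

theorem mo_add (z : ι → k) (a b : ι → ℕ) : mo z (a + b) = mo z a * mo z b := by
  simp only [mo, Pi.add_apply, pow_add, Finset.prod_mul_distrib]

theorem mo_single [DecidableEq ι] (z : ι → k) (i : ι) (m : ℕ) :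
    mo z (Pi.single i m) = z i ^ m := by
  rw [mo, Finset.prod_eq_single i]
  · rw [Pi.single_eq_same]
  · intro j _ hj
    rw [Pi.single_eq_of_ne hj, pow_zero]
  · intro h
    exact absurd (Finset.mem_univ i) h

/-- the span of the reduced monomials contains all monomials -/
theorem mo_mem (z : ι → k) (M : ι → ℕ) (Q : ι → MvPolynomial ι R)
    (hQ : ∀ i, (Q i).totalDegree < M i) (hz : ∀ i, z i ^ M i = aeval z (Q i)) :
    ∀ (n : ℕ) (a : ι → ℕ), ∑ i, a i = n → mo z a ∈ Submodule.span R
      (Set.range fun c : (∀ i, Fin (M i)) => mo z fun i => (c i : ℕ)) := by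
  classical
  intro n
  induction n using Nat.strong_induction_on with
  | _ n ih =>
    intro a ha
    by_cases hall : ∀ i, a i < M i
    · exact Submodule.subset_span ⟨fun i => ⟨a i, hall i⟩, rfl⟩
    · push Not at hall
      obtain ⟨i, hi⟩ := hall
      have hle : Pi.single i (M i) ≤ a := by
        intro j
        by_cases hj : j = i
        · subst hj
          rw [Pi.single_eq_same]
          exact hi
        · rw [Pi.single_eq_of_ne hj]
          exact Nat.zero_le _
      obtain ⟨a', rfl⟩ : ∃ a', a = a' + Pi.single i (M i) :=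
        ⟨a - Pi.single i (M i), (tsub_add_cancel_of_le hle).symm⟩
      rw [mo_add, mo_single, hz, aeval_def, eval₂_eq', Finset.mul_sum]
      refine Submodule.sum_mem _ fun u hu => ?_
      have h2 : mo z a' * (algebraMap R k (coeff u (Q i)) * ∏ j, z j ^ u j) =
          coeff u (Q i) • mo z (a' + ⇑u) := by
        rw [mo_add, Algebra.smul_def, mo, mo]
        ring
      rw [h2]
      refine Submodule.smul_mem _ _ (ih _ ?_ _ rfl)
      have h3 : ∑ j, u j ≤ (Q i).totalDegree := by
        have := le_totalDegree hu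
        rwa [Finsupp.sum_fintype _ _ (fun _ => rfl)] at this
      have h4 : ∑ j, (Pi.single i (M i) : ι → ℕ) j = M i := by
        rw [Finset.sum_eq_single i]
        · rw [Pi.single_eq_same]
        · intro j _ hj
          rw [Pi.single_eq_of_ne hj]
        · intro h
          exact absurd (Finset.mem_univ i) h
      have h5 := hQ i
      simp only [Pi.add_apply, Finset.sum_add_distrib] at ha ⊢
      omega

/-- the ring generated by the `z i` is finite -/
theorem span_bound [Finite R] (z : ι → k) (M : ι → ℕ) (Q : ι → MvPolynomial ι R)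
    (hQ : ∀ i, (Q i).totalDegree < M i) (hz : ∀ i, z i ^ M i = aeval z (Q i)) :
    ∃ S : Set k, S.Finite ∧ S.ncard ≤ Nat.card R ^ (∏ i, M i) ∧
      ∀ P : MvPolynomial ι R, aeval z P ∈ S := by
  classical
  let v : (∀ i, Fin (M i)) → k := fun c => mo z fun i => (c i : ℕ)
  let f : ((∀ i, Fin (M i)) → R) → k := fun c => ∑ a, c a • v a
  refine ⟨Set.range f, Set.finite_range f, ?_, ?_⟩
  · have h1 : (Set.range f).ncard ≤ Nat.card ((∀ i, Fin (M i)) → R) := Finite.card_range_le f
    rw [Nat.card_fun, Nat.card_pi] at h1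
    simpa using h1
  · intro P
    have h1 : aeval z P ∈ Submodule.span R (Set.range v) := by
      rw [aeval_def, eval₂_eq']
      refine Submodule.sum_mem _ fun u hu => ?_
      rw [← Algebra.smul_def]
      exact Submodule.smul_mem _ _ (mo_mem z M Q hQ hz _ (⇑u) rfl)
    rw [Submodule.mem_span_range_iff_exists_fun] at h1
    exact h1

/-- the scaling homomorphism -/
noncomputable def scale {A : Type*} [CommRing A] (ρ : R →+* A) (y : ι → A) :
    MvPolynomial ι R →+* Polynomial A :=
  eval₂Hom (Polynomial.C.comp ρ) (fun i => Polynomial.C (y i) * Polynomial.X)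

theorem scale_monomial {A : Type*} [CommRing A] (ρ : R →+* A) (y : ι → A) (u : ι →₀ ℕ) (c : R) :
    scale ρ y (monomial u c) = Polynomial.C (eval₂ ρ y (monomial u c)) * Polynomial.X ^ u.degree := by
  rw [scale, coe_eval₂Hom, eval₂_monomial, eval₂_monomial, Finsupp.prod_fintype _ _ (by simp),
    Finsupp.prod_fintype _ _ (by simp), Finsupp.degree_eq_sum]
  simp only [mul_pow, Finset.prod_mul_distrib, Finset.prod_pow_eq_pow_sum, map_mul, map_prod,
    map_pow, RingHom.comp_apply]
  ring

/-- the value of a homogeneous component -/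
theorem coeff_scale {A : Type*} [CommRing A] (ρ : R →+* A) (y : ι → A) (h : MvPolynomial ι R)
    (n : ℕ) : (scale ρ y h).coeff n = eval₂ ρ y (homogeneousComponent n h) := by
  classical
  refine MvPolynomial.induction_on' h ?_ ?_
  · intro u c
    rw [scale_monomial, Polynomial.coeff_C_mul_X_pow,
      homogeneousComponent_of_mem (isHomogeneous_monomial c rfl)]
    split_ifs
    · rfl
    · simp
  · intro p q hp hq
    rw [map_add, map_add, Polynomial.coeff_add, eval₂_add, hp, hq]

theorem scale_homog {A : Type*} [CommRing A] (ρ : R →+* A) (y : ι → A) {h : MvPolynomial ι R}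
    {d : ℕ} (hd : h.IsHomogeneous d) :
    scale ρ y h = Polynomial.C (eval₂ ρ y h) * Polynomial.X ^ d := by
  ext n
  rw [coeff_scale, Polynomial.coeff_C_mul_X_pow, homogeneousComponent_of_mem hd]
  split_ifs
  · rfl
  · simp

/-- comparison of the homogeneous parts of the degree `M` of a certificate -/
theorem compare {β : Type*} [Fintype β] {A : Type*} [CommRing A] (ρ : R →+* A) (z : ι → A)
    {δ M : ℕ} (j : ι) (e : R) (f : β → MvPolynomial ι R) (p : MvPolynomial ι R)
    (hf : ∀ b, ∃ d, (f b).IsHomogeneous d) (hp : p.IsHomogeneous δ)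
    (u : β → MvPolynomial ι R) (u₀ h : MvPolynomial ι R) (D : R)
    (he : (C e * X j) ^ M = u₀ * C D + h * p + ∑ b, u b * f b) (hD : ρ D = 0)
    (hz : ∀ b, eval₂ ρ z (f b) = 0) (hp1 : eval₂ ρ z p = 1) :
    (ρ e * z j) ^ M = if δ ≤ M then eval₂ ρ z (homogeneousComponent (M - δ) h) else 0 := by
  have h1 := congrArg (scale ρ z) he
  have hX : scale ρ z (C e * X j) = Polynomial.C (ρ e * z j) * Polynomial.X := by
    rw [scale_homog ρ z (isHomogeneous_C_mul_X e j)]
    simp
  have hf0 : ∀ b, scale ρ z (f b) = 0 := by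
    intro b
    obtain ⟨d, hd⟩ := hf b
    rw [scale_homog ρ z hd, hz, map_zero, zero_mul]
  have hp0 : scale ρ z p = Polynomial.X ^ δ := by
    rw [scale_homog ρ z hp, hp1, map_one, one_mul]
  have hD0 : scale ρ z (C D) = 0 := by
    rw [scale, coe_eval₂Hom, eval₂_C, RingHom.comp_apply, hD, map_zero]
  rw [map_pow, hX, map_add, map_add, map_mul (scale ρ z) u₀, map_mul (scale ρ z) h, map_sum, hD0,
    hp0, mul_zero, zero_add] at h1
  rw [Finset.sum_eq_zero (fun b _ => by rw [map_mul, hf0, mul_zero]), add_zero] at h1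
  rw [mul_pow, ← Polynomial.C_pow] at h1
  have h2 : (Polynomial.C ((ρ e * z j) ^ M) * Polynomial.X ^ M).coeff M =
    (scale ρ z h * Polynomial.X ^ δ).coeff M := by rw [h1]
  rw [Polynomial.coeff_C_mul_X_pow, if_pos rfl, Polynomial.coeff_mul_X_pow'] at h2
  rw [h2]
  split_ifs
  · rw [coeff_scale]
  · rfl

end Pool.Agent.Q212.HD
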