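import Pool.Agent.Q170.HD.St
import Pool.Agent.Q212.HD.Span

/-!
# Certificates with coefficients in a finitely generated ring (helper file)
-/

set_option autoImplicit false

open MvPolynomial

namespace Pool.Agent.Q212.HD

open Pool.Agent.Y226 Pool.Agent.Y226.ZG Pool.Agent.Y226.ZM
open Pool.Agent.Q170.HD (Fo vf tc)
open Pool.Agent.Q170.ZP.Multi (evM flat ipol aeval_flat aeval_ipol certP)

section spec

variable {A B : Type*} [CommRing A] [CommRing B] {r : ℕ} {τ : Type*}

/-- the specialisation at the integral parameter `t` -/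
noncomputable def spec (t : Fin r → ℤ) : MvPolynomial (Fin r ⊕ τ) A →+* MvPolynomial τ A :=
  eval₂Hom C (Sum.elim (fun i => C ((t i : ℤ) : A)) X)

theorem spec_map (t : Fin r → ℤ) (g : A →+* B) (P : MvPolynomial (Fin r ⊕ τ) A) :
    map g (spec t P) = spec t (map g P) := by
  have h : (map g).comp (spec (τ := τ) t) = (spec t).comp (map g) := by
    refine ringHom_ext (fun a => ?_) (fun i => ?_)
    · simp [spec]
    · rcases i with i | i
      · simp [spec]
      · simp [spec]
  exact congrArg (fun f : _ →+* _ => f P) h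

theorem eval_spec (t : Fin r → ℤ) (g : A →+* B) (y : τ → B) (P : MvPolynomial (Fin r ⊕ τ) A) :
    eval₂ g y (spec t P) = eval₂ g (Sum.elim (fun i => ((t i : ℤ) : B)) y) P := by
  have h : (eval₂Hom g y).comp (spec t) =
      eval₂Hom g (Sum.elim (fun i => ((t i : ℤ) : B)) y) := by
    refine ringHom_ext (fun a => ?_) (fun i => ?_)
    · simp [spec]
    · rcases i with i | i
      · simp only [spec, RingHom.comp_apply, coe_eval₂Hom, eval₂_X, Sum.elim_inl, map_intCast]
      · simp [spec]
  exact congrArg (fun f : _ →+* _ => f P) h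

/-- an integral polynomial in the parameters -/
noncomputable def ip (A : Type*) [CommRing A] (E : MvPolynomial (Fin r) ℤ) :
    MvPolynomial (Fin r ⊕ τ) A :=
  rename Sum.inl (map (Int.castRingHom A) E)

theorem spec_ip (t : Fin r → ℤ) (E : MvPolynomial (Fin r) ℤ) :
    spec (τ := τ) t (ip A E) = C ((eval t E : ℤ) : A) := by
  have h : ((spec (A := A) (τ := τ) t).comp (rename Sum.inl : MvPolynomial (Fin r) A →ₐ[A]
      MvPolynomial (Fin r ⊕ τ) A).toRingHom).comp (map (Int.castRingHom A)) =
      (C.comp (Int.castRingHom A) : ℤ →+* MvPolynomial τ A).comp (eval t) := by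
    refine ringHom_ext (fun a => ?_) (fun i => ?_)
    · simp [spec]
    · simp [spec]
  exact congrArg (fun f : _ →+* _ => f E) h

theorem map_ip (g : A →+* B) (E : MvPolynomial (Fin r) ℤ) :
    map g (ip (τ := τ) A E) = ip B E := by
  rw [ip, map_rename, map_map, ip, RingHom.ext_int (g.comp (Int.castRingHom A))
    (Int.castRingHom B)]

theorem spec_flat (t : Fin r → ℤ) (F : MvPolynomial τ (MvPolynomial (Fin r) QA)) :
    spec t (flat QA F) = map (eval fun i => ((t i : ℤ) : QA)) F := by
  have h : (spec t).comp (flat QA) = map (σ := τ) (eval fun i => ((t i : ℤ) : QA)) := by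
    refine ringHom_ext (fun a => ?_) (fun i => ?_)
    · have h2 : ((spec (A := QA) (τ := τ) t).comp (rename Sum.inl : MvPolynomial (Fin r) QA →ₐ[QA]
          MvPolynomial (Fin r ⊕ τ) QA).toRingHom).comp (map (algebraMap QA QA)) =
          C.comp (eval fun i => ((t i : ℤ) : QA)) := by
        refine ringHom_ext (fun a => ?_) (fun i => ?_)
        · simp [spec]
        · simp [spec]
      have h3 := congrArg (fun f : _ →+* _ => f a) h2
      simp only [RingHom.comp_apply, flat, coe_eval₂Hom, eval₂_C, map_C] at h3 ⊢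
      exact h3
    · simp [flat, spec]
  exact congrArg (fun f : _ →+* _ => f F) h

end spec

/-- the subring generated by `W` -/
noncomputable abbrev RW (W : Finset QA) : Subring QA := Subring.closure (W : Set QA)

theorem exists_lift {σ : Type*} {W : Finset QA} {P : MvPolynomial σ QA} (h : P.coeffs ⊆ W) :
    ∃ Q : MvPolynomial σ (RW W), map (RW W).subtype Q = P := by
  have h1 : P ∈ Set.range (map (σ := σ) (RW W).subtype) := by
    rw [mem_range_map_iff_coeffs_subset]
    intro c hc
    exact ⟨⟨c, Subring.subset_closure (h hc)⟩, rfl⟩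
  exact h1

theorem eval₂_lift {r N : ℕ} {W : Finset QA} (t : Fin r → ℤ) (F : Fo r N)
    (Q : MvPolynomial (Fin r ⊕ Fin (N + 1)) (RW W)) (hQ : map (RW W).subtype Q = flat QA F)
    (y : Fin (N + 1) → ℂ) :
    eval₂ (rA.comp (RW W).subtype) y (spec t Q) = vf (tc t) y F := by
  rw [eval_spec, ← eval₂_map, hQ]
  have h1 := aeval_flat (k := QA) (tc t) y F
  rw [aeval_def] at h1
  exact h1

theorem homog_lift {r N d : ℕ} {W : Finset QA} (t : Fin r → ℤ) {F : Fo r N}
    (hF : F.IsHomogeneous d) (Q : MvPolynomial (Fin r ⊕ Fin (N + 1)) (RW W))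
    (hQ : map (RW W).subtype Q = flat QA F) : (spec t Q).IsHomogeneous d := by
  refine IsHomogeneous.of_map (f := (RW W).subtype) Subtype.val_injective ?_
  rw [spec_map, hQ, spec_flat]
  exact hF.map _

/-- The certificates with coefficients in a finitely generated ring. -/
theorem cert {r N δ : ℕ} {β : Type} [Fintype β] (F : β → Fo r N) (P₁ P₂ : Fo r N)
    (D E : MvPolynomial (Fin r) ℤ) (hF : ∀ b, ∃ d, (F b).IsHomogeneous d)
    (hP₁ : P₁.IsHomogeneous δ) (hP₂ : P₂.IsHomogeneous δ)
    (hs : ∀ t : Fin r → ℂ, aeval t D = 0 → aeval t E ≠ 0 → ∀ y : Fin (N + 1) → ℂ,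
      (∀ b, vf t y (F b) = 0) → vf t y P₂ = 0 → y = 0) :
    ∃ (M : Fin (N + 1) → ℕ) (W : Finset QA), ∀ t : Fin r → ℤ,
      ∃ (f : β → MvPolynomial (Fin (N + 1)) (RW W)) (p₁ p₂ : MvPolynomial (Fin (N + 1)) (RW W))
        (u₀ h : Fin (N + 1) → MvPolynomial (Fin (N + 1)) (RW W))
        (u : Fin (N + 1) → β → MvPolynomial (Fin (N + 1)) (RW W)),
        (∀ b, ∃ d, (f b).IsHomogeneous d) ∧ p₁.IsHomogeneous δ ∧ p₂.IsHomogeneous δ ∧
        (∀ b y, eval₂ (rA.comp (RW W).subtype) y (f b) = vf (tc t) y (F b)) ∧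
        (∀ y, eval₂ (rA.comp (RW W).subtype) y p₁ = vf (tc t) y P₁) ∧
        (∀ y, eval₂ (rA.comp (RW W).subtype) y p₂ = vf (tc t) y P₂) ∧
        ∀ j, (C ((eval t E : ℤ) : RW W) * X j) ^ M j =
          u₀ j * C ((eval t D : ℤ) : RW W) + h j * p₂ + ∑ b, u j b * f b := by
  classical
  let Fa : Option (Option β) → MvPolynomial (Fin r ⊕ Fin (N + 1)) QA := fun a =>
    Option.elim a (ip QA D) fun a' => Option.elim a' (flat QA P₂) fun b => flat QA (F b)
  have hcert := fun j : Fin (N + 1) => certP (k := QA)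
    (fun a : Empty => (a.elim : MvPolynomial (Fin r ⊕ Fin (N + 1)) QA)) Fa
      (ip QA E * X (Sum.inr j)) (by
        intro z _ hz
        obtain ⟨t, y, rfl⟩ : ∃ t y, z = Sum.elim t y :=
          ⟨fun a => z (Sum.inl a), fun a => z (Sum.inr a), by
            funext a
            rcases a with a | a <;> rfl⟩
        rw [map_mul, aeval_X, Sum.elim_inr]
        have e1 : ∀ G : MvPolynomial (Fin r) ℤ, aeval (Sum.elim t y)
            (ip QA G : MvPolynomial (Fin r ⊕ Fin (N + 1)) QA) = aeval t G :=
          fun G => aeval_ipol (k := QA) t y G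
        rw [e1]
        by_cases hE : aeval t E = 0
        · rw [hE, zero_mul]
        · have h0 := hz none
          have h1 := hz (some none)
          have h2 := fun b => hz (some (some b))
          simp only [Fa, Option.elim_none, Option.elim_some] at h0 h1 h2
          rw [e1] at h0
          rw [aeval_flat] at h1
          have h3 := hs t h0 hE y (fun b => by
            have := h2 b
            rwa [aeval_flat] at this) h1
          rw [h3, Pi.zero_apply, mul_zero])
  choose M U hU using hcert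
  have hpoly : ∀ j, (ip QA E * X (Sum.inr j)) ^ M j = ∑ a, U j a * Fa a := by
    intro j
    refine MvPolynomial.funext fun y => ?_
    apply (algebraMap QA ℂ).injective
    have h1 := hU j (fun i => algebraMap QA ℂ (y i)) (fun a => a.elim)
    have e2 : ∀ P : MvPolynomial (Fin r ⊕ Fin (N + 1)) QA,
        aeval (fun i => algebraMap QA ℂ (y i)) P = algebraMap QA ℂ (eval y P) := by
      intro P
      exact MvPolynomial.aeval_algebraMap_apply ℂ y P
    simp only [e2] at h1
    rw [map_pow, map_pow, map_sum, map_sum, h1]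
    refine Finset.sum_congr rfl fun a _ => ?_
    rw [map_mul, map_mul]
  let W : Finset QA := (Finset.univ.biUnion fun j => Finset.univ.biUnion fun a => (U j a).coeffs) ∪
    ((Finset.univ.biUnion fun b => (flat QA (F b)).coeffs) ∪ ((flat QA P₁).coeffs ∪
      (flat QA P₂).coeffs))
  have hWU : ∀ j a, (U j a).coeffs ⊆ W := fun j a c hc =>
    Finset.mem_union_left _ (Finset.mem_biUnion.2 ⟨j, Finset.mem_univ _,
      Finset.mem_biUnion.2 ⟨a, Finset.mem_univ _, hc⟩⟩)
  have hWF : ∀ b, (flat QA (F b)).coeffs ⊆ W := fun b c hc =>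
    Finset.mem_union_right _ (Finset.mem_union_left _ (Finset.mem_biUnion.2
      ⟨b, Finset.mem_univ _, hc⟩))
  have hW1 : (flat QA P₁).coeffs ⊆ W := fun c hc =>
    Finset.mem_union_right _ (Finset.mem_union_right _ (Finset.mem_union_left _ hc))
  have hW2 : (flat QA P₂).coeffs ⊆ W := fun c hc =>
    Finset.mem_union_right _ (Finset.mem_union_right _ (Finset.mem_union_right _ hc))
  choose U' hU' using fun j a => exists_lift (hWU j a)
  choose F' hF' using fun b => exists_lift (hWF b)
  obtain ⟨Q₁, hQ₁⟩ := exists_lift hW1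
  obtain ⟨Q₂, hQ₂⟩ := exists_lift hW2
  refine ⟨M, W, fun t => ⟨fun b => spec t (F' b), spec t Q₁, spec t Q₂,
    fun j => spec t (U' j none), fun j => spec t (U' j (some none)),
    fun j b => spec t (U' j (some (some b))), fun b => ?_, homog_lift t hP₁ Q₁ hQ₁,
    homog_lift t hP₂ Q₂ hQ₂, fun b y => eval₂_lift t _ _ (hF' b) y,
    fun y => eval₂_lift t _ _ hQ₁ y, fun y => eval₂_lift t _ _ hQ₂ y, fun j => ?_⟩⟩
  · obtain ⟨d, hd⟩ := hF b
    exact ⟨d, homog_lift t hd _ (hF' b)⟩
  · have h1 : (ip (RW W) E * X (Sum.inr j)) ^ M j = U' j none * ip (RW W) D +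
        (U' j (some none) * Q₂ + ∑ b, U' j (some (some b)) * F' b) := by
      apply map_injective (RW W).subtype Subtype.val_injective
      simp only [map_pow, map_mul, map_add, map_sum, map_X, map_ip, hU', hF', hQ₂]
      rw [hpoly, Fintype.sum_option, Fintype.sum_option]
      rfl
    have h2 := congrArg (spec t) h1
    simp only [map_pow, map_mul, map_add, map_sum, spec_ip] at h2
    have h3 : spec t (X (Sum.inr j) : MvPolynomial (Fin r ⊕ Fin (N + 1)) (RW W)) = X j := by
      simp [spec]
    rw [h3] at h2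
    rw [h2, add_assoc]

end Pool.Agent.Q212.HD
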