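import Pool.Agent.Q212.HD.Res

/-!
# Bounded fields of definition for the points of the strata of dimension zero (job HD-FINR)
-/

set_option autoImplicit false

open MvPolynomial

namespace Pool.Agent.Q212.HD

open Pool.Agent.Y226 Pool.Agent.Y226.ZG
open Pool.Agent.Q170.HD (Fo vf tc S_FINR)

/-- the residue of a primitive root of unity of order prime to `p` -/
theorem prim_res {C k : Type} [NormedField C] [IsUltrametricDist C] [Field k] {p : ℕ}
    [CharP k p] (red : OO C →+* k) {g : ℕ} (hg : 0 < g) (hgp : g.Coprime p)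
    (hp : p.Prime) {ζ : OO C} (hζ : IsPrimitiveRoot ζ g) : IsPrimitiveRoot (red ζ) g := by
  have h0 : NeZero (g : k) := by
    refine ⟨fun h => ?_⟩
    rw [CharP.cast_eq_zero_iff k p] at h
    have h1 := Nat.eq_one_of_dvd_coprimes hgp h dvd_rfl
    exact hp.one_lt.ne' h1
  have h1 : (Polynomial.cyclotomic g (OO C)).IsRoot ζ := hζ.isRoot_cyclotomic hg
  have h2 := h1.map (f := red)
  rw [Polynomial.map_cyclotomic, Polynomial.isRoot_cyclotomic_iff] at h2
  exact h2

theorem eval_smul' {R A : Type*} [CommRing R] [CommRing A] {ι : Type*} [Fintype ι] (ρ : R →+* A)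
    {P : MvPolynomial ι R} {d : ℕ} (hP : P.IsHomogeneous d) (c : A) (y : ι → A) :
    eval₂ ρ (c • y) P = c ^ d * eval₂ ρ y P := by
  have h1 := congrArg (Polynomial.eval c) (scale_homog ρ y hP)
  rw [Polynomial.eval_mul, Polynomial.eval_C, Polynomial.eval_pow, Polynomial.eval_X] at h1
  rw [mul_comm, ← h1, scale, coe_eval₂Hom]
  have h2 := eval₂_comp_left (Polynomial.evalRingHom c) (Polynomial.C.comp ρ)
    (fun i => Polynomial.C (y i) * Polynomial.X) P
  rw [Polynomial.coe_evalRingHom] at h2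
  rw [h2]
  congr 1
  · ext x
    simp
  · funext i
    rw [Pi.smul_apply, smul_eq_mul, Function.comp_apply, Polynomial.eval_mul, Polynomial.eval_C,
      Polynomial.eval_X, mul_comm]

/-- JOB HD-FINR -/
theorem finr : S_FINR := by
  classical
  intro r N δ hδ β _ F P₁ P₂ D E hF hP₁ hP₂ hs
  obtain ⟨M, W, hcert⟩ := cert F P₁ P₂ D E hF hP₁ hP₂ hs
  obtain ⟨D₀, hD₀⟩ := finite_res W
  refine ⟨W, D₀ * ∏ j, M j, ?_⟩
  intro C _ _ _ _ _ p hp φ hp0 hp1 hW t hDt hEt y hy hFb hP2 g ζ hg hgp hζ hnear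
  obtain ⟨k, _, _, _, red, hred⟩ := exists_residue2 (C := C) (p := p) hp1
  obtain ⟨f, p₁, p₂, u₀, h, u, hf, hp₁, hp₂, ef, e1, e2, hid⟩ := hcert t
  have hle : RW W ≤ (OO C).comap (φ.comp rA) := by
    rw [Subring.closure_le]
    intro w hw
    exact hW w hw
  let ι : RW W →+* OO C := ((φ.comp rA).comp (RW W).subtype).codRestrict (OO C)
    (fun x => hle x.2)
  let ρ : RW W →+* k := red.comp ι
  let yO : Fin (N + 1) → OO C := fun j => ⟨φ (y j), hy j⟩
  let yb : Fin (N + 1) → k := fun j => red (yO j)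
  have hval : ∀ Q : MvPolynomial (Fin (N + 1)) (RW W),
      ((eval₂ ι yO Q : OO C) : C) = φ (eval₂ (rA.comp (RW W).subtype) y Q) := by
    intro Q
    have h1 := eval₂_comp_left (OO C).subtype ι yO Q
    have h2 := eval₂_comp_left φ (rA.comp (RW W).subtype) y Q
    rw [Subring.coe_subtype] at h1
    rw [h1, h2]
    rfl
  have hres : ∀ Q : MvPolynomial (Fin (N + 1)) (RW W), red (eval₂ ι yO Q) = eval₂ ρ yb Q :=
    fun Q => eval₂_comp_left red ι yO Q
  have hfz : ∀ b, eval₂ ρ yb (f b) = 0 := by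
    intro b
    rw [← hres, hred, hval, ef]
    exact hFb b
  have hp2z : eval₂ ρ yb p₂ ≠ 0 := by
    intro h0
    rw [← hres, hred, hval, e2, hP2] at h0
    exact lt_irrefl _ h0
  have hζ1 : ‖ζ‖ = 1 := by
    have h1 : ‖ζ‖ ^ g = 1 := by rw [← norm_pow, hζ.pow_eq_one, norm_one]
    exact (pow_eq_one_iff_of_nonneg (norm_nonneg _) hg.ne').1 h1
  let ζO : OO C := ⟨ζ, hζ1.le⟩
  have hζO : IsPrimitiveRoot ζO g :=
    IsPrimitiveRoot.of_map_of_injective (f := (OO C).subtype) hζ Subtype.val_injective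
  have hx := prim_res red hg hgp hp.out hζO
  have hP12 : eval₂ ρ yb p₁ = red ζO * eval₂ ρ yb p₂ := by
    rw [← hres, ← hres, ← map_mul, ← sub_eq_zero, ← map_sub, hred]
    rw [AddSubgroupClass.coe_sub, Subring.coe_mul, hval, hval, e1, e2]
    have hne : φ (vf (tc t) y P₂) ≠ 0 := by
      intro h0
      rw [h0, norm_zero] at hP2
      exact zero_ne_one hP2
    have h1 : φ (vf (tc t) y P₁) - ζ * φ (vf (tc t) y P₂) =
        (φ (vf (tc t) y P₁) / φ (vf (tc t) y P₂) - ζ) * φ (vf (tc t) y P₂) := by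
      field_simp
    change ‖φ (vf (tc t) y P₁) - ζ * φ (vf (tc t) y P₂)‖ < 1
    rw [h1, norm_mul, hP2, mul_one]
    exact hnear
  obtain ⟨l, hl⟩ := IsAlgClosed.exists_pow_nat_eq (eval₂ ρ yb p₂)⁻¹ hδ
  let z : Fin (N + 1) → k := l • yb
  have hz2 : eval₂ ρ z p₂ = 1 := by
    rw [eval_smul' ρ hp₂, hl, inv_mul_cancel₀ hp2z]
  have hz1 : eval₂ ρ z p₁ = red ζO := by
    rw [eval_smul' ρ hp₁, hl, hP12]
    field_simp
  have hzf : ∀ b, eval₂ ρ z (f b) = 0 := by
    intro b
    obtain ⟨d, hd⟩ := hf b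
    rw [eval_smul' ρ hd, hfz, mul_zero]
  -- the parameter
  have hDk : ρ ((eval t D : ℤ) : RW W) = 0 := by
    rw [map_intCast]
    exact (CharP.intCast_eq_zero_iff k p _).2 hDt
  obtain ⟨e', he'⟩ : ∃ e' : ℤ, (e' : k) * ((eval t E : ℤ) : k) = 1 := by
    have h1 : IsCoprime (eval t E) (p : ℤ) := by
      rw [isCoprime_comm]
      exact (Nat.prime_iff_prime_int.1 hp.out).coprime_iff_not_dvd.2 hEt
    obtain ⟨a, b, hab⟩ := h1
    refine ⟨a, ?_⟩
    have h2 := congrArg (Int.cast : ℤ → k) hab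
    push_cast at h2
    rw [CharP.cast_eq_zero, mul_zero, add_zero] at h2
    exact h2
  have hkey := fun j => compare ρ z j ((eval t E : ℤ) : RW W) f p₂ hf hp₂ (u j) (u₀ j) (h j)
    ((eval t D : ℤ) : RW W) (hid j) hDk hzf hz2
  -- the finite ring
  obtain ⟨hfin, hcard⟩ := hD₀ p k ρ
  have hR : Finite ρ.range := hfin.to_subtype
  let ρ' : RW W →+* ρ.range := ρ.rangeRestrict
  have hρ' : (algebraMap ρ.range k).comp ρ' = ρ := RingHom.ext fun _ => rfl
  have hev : ∀ Q : MvPolynomial (Fin (N + 1)) (RW W), aeval z (map ρ' Q) = eval₂ ρ z Q := by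
    intro Q
    rw [aeval_def, eval₂_map, hρ']
  have hM : ∀ j, ¬ δ ≤ M j → 0 < M j := by
    intro j hj
    by_contra hcon
    have h0 : M j = 0 := by omega
    have h1 := hkey j
    rw [if_neg hj, h0, pow_zero] at h1
    exact one_ne_zero h1
  obtain ⟨S, hS, hcard', hmem⟩ := span_bound (R := ρ.range) z M
    (fun j => if δ ≤ M j then MvPolynomial.C ((e' : ρ.range) ^ M j) *
      map ρ' (homogeneousComponent (M j - δ) (h j)) else 0) (fun j => by
      split_ifs with hj
      · have h1 := (((homogeneousComponent_isHomogeneous (M j - δ) (h j)).map ρ').C_mul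
          ((e' : ρ.range) ^ M j)).totalDegree_le
        omega
      · rw [totalDegree_zero]
        exact hM j hj) (fun j => by
      have h1 := hkey j
      rw [map_intCast] at h1
      have h2 : z j ^ M j = (e' : k) ^ M j * (((eval t E : ℤ) : k) * z j) ^ M j := by
        rw [← mul_pow, ← mul_assoc, he', one_mul]
      rw [h2, h1]
      split_ifs with hj
      · rw [map_mul, hev, algHom_C, map_pow, map_intCast]
      · rw [mul_zero, map_zero])
  have hpow : ∀ m : ℕ, red ζO ^ m ∈ S := by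
    intro m
    have h1 := hmem (map ρ' p₁ ^ m)
    rwa [map_pow, hev, hz1] at h1
  have hinj : Set.InjOn (fun m : ℕ => red ζO ^ m) (Finset.range g : Set ℕ) := by
    intro a ha b hb hab
    rw [Finset.mem_coe, Finset.mem_range] at ha hb
    exact hx.pow_inj ha hb hab
  have h1 : g ≤ S.ncard := by
    have h2 : ((Finset.range g : Set ℕ).image fun m : ℕ => red ζO ^ m).ncard = g := by
      rw [hinj.ncard_image, Set.ncard_coe_finset, Finset.card_range]
    rw [← h2]
    refine Set.ncard_le_ncard ?_ hS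
    rintro _ ⟨m, _, rfl⟩
    exact hpow m
  have h3 : Nat.card ρ.range ≤ p ^ D₀ := hcard
  calc g ≤ S.ncard := h1
    _ ≤ Nat.card ρ.range ^ ∏ j, M j := hcard'
    _ ≤ (p ^ D₀) ^ ∏ j, M j := Nat.pow_le_pow_left h3 _
    _ = p ^ (D₀ * ∏ j, M j) := by rw [pow_mul]

end Pool.Agent.Q212.HD
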