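import Pool.Agent.Q212.HD.Cert

/-!
# The residue rings of finitely generated rings of algebraic numbers are of bounded degree
-/

set_option autoImplicit false

open MvPolynomial

namespace Pool.Agent.Q212.HD

open Pool.Agent.Y226

/-- a primitive integral polynomial of an algebraic number -/
theorem exists_prim (w : QA) : ∃ f : Polynomial ℤ, f.IsPrimitive ∧ f ≠ 0 ∧ Polynomial.aeval w f = 0 := by
  have h1 : IsAlgebraic ℤ w := by
    rw [IsFractionRing.isAlgebraic_iff ℤ ℚ QA]
    exact Algebra.IsAlgebraic.isAlgebraic w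
  obtain ⟨f, hf0, hf⟩ := h1
  refine ⟨f.primPart, f.isPrimitive_primPart, f.primPart_ne_zero, ?_⟩
  rw [f.eq_C_content_mul_primPart, map_mul, Polynomial.aeval_C] at hf
  rcases mul_eq_zero.1 hf with h | h
  · exfalso
    rw [FaithfulSMul.algebraMap_eq_zero_iff] at h
    exact hf0 (Polynomial.content_eq_zero_iff.1 h)
  · exact h

/-- the ring generated by the residues of `W` is finite -/
theorem finite_res (W : Finset QA) : ∃ D₀ : ℕ, ∀ (p : ℕ) [Fact p.Prime] (k : Type) [Field k]
    [CharP k p] (ρ : RW W →+* k), (Set.range ρ).Finite ∧ (Set.range ρ).ncard ≤ p ^ D₀ := by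
  classical
  choose f hf hf0 hfw using exists_prim
  refine ⟨∏ w : W, (f w).natDegree, fun p hp k _ _ ρ => ?_⟩
  letI : Algebra (ZMod p) k := ZMod.algebra k p
  let z : W → k := fun w => ρ ⟨w, Subring.subset_closure w.2⟩
  let fb : W → Polynomial (ZMod p) := fun w => (f w).map (Int.castRingHom (ZMod p))
  have hfb0 : ∀ w, fb w ≠ 0 := by
    intro w h0
    have h1 : Polynomial.C (p : ℤ) ∣ f w := by
      rw [Polynomial.C_dvd_iff_dvd_coeff]
      intro i
      have h2 := congrArg (fun q : Polynomial (ZMod p) => q.coeff i) h0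
      simp only [fb, Polynomial.coeff_map, Polynomial.coeff_zero] at h2
      exact (ZMod.intCast_zmod_eq_zero_iff_dvd _ _).1 h2
    have h3 := hf w _ h1
    have h4 : (p : ℤ).natAbs = 1 := Int.isUnit_iff_natAbs_eq.1 h3
    rw [Int.natAbs_natCast] at h4
    exact hp.out.one_lt.ne' h4
  have hroot : ∀ w, Polynomial.aeval (z w) (fb w) = 0 := by
    intro w
    have h1 : Polynomial.aeval (⟨w, Subring.subset_closure w.2⟩ : RW W) (f w) = 0 := by
      apply Subtype.val_injective
      have h2 := Polynomial.hom_eval₂ (f w) (algebraMap ℤ (RW W)) (RW W).subtype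
        (⟨w, Subring.subset_closure w.2⟩ : RW W)
      have h3 := hfw w
      rw [Polynomial.aeval_def] at h3 ⊢
      rw [← Subring.coe_subtype, h2, map_zero]
      rw [RingHom.ext_int (((RW W).subtype).comp (algebraMap ℤ (RW W))) (algebraMap ℤ QA)]
      exact h3
    have h2 := congrArg ρ h1
    rw [Polynomial.aeval_def, Polynomial.hom_eval₂, map_zero] at h2
    rw [Polynomial.aeval_def, Polynomial.eval₂_map]
    rw [RingHom.ext_int ((algebraMap (ZMod p) k).comp (Int.castRingHom (ZMod p)))
      (ρ.comp (algebraMap ℤ (RW W)))]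
    exact h2
  let M : W → ℕ := fun w => (fb w).natDegree
  have hM : ∀ w, 0 < M w := by
    intro w
    by_contra hcon
    have h0 : (fb w).natDegree = 0 := by
      have : M w = 0 := by omega
      exact this
    have h1 := hroot w
    rw [Polynomial.eq_C_of_natDegree_eq_zero h0, Polynomial.aeval_C] at h1
    apply hfb0 w
    rw [Polynomial.eq_C_of_natDegree_eq_zero h0]
    rw [(map_eq_zero _).1 h1, map_zero]
  let g : W → Polynomial (ZMod p) := fun w => fb w * Polynomial.C (fb w).leadingCoeff⁻¹
  have hgm : ∀ w, (g w).Monic := fun w => Polynomial.monic_mul_leadingCoeff_inv (hfb0 w)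
  have hgd : ∀ w, (g w).natDegree = M w := by
    intro w
    exact Polynomial.natDegree_mul_leadingCoeff_inv _ (hfb0 w)
  have hgr : ∀ w, Polynomial.aeval (z w) (g w) = 0 := by
    intro w
    rw [map_mul, hroot, zero_mul]
  let Q : W → MvPolynomial W (ZMod p) := fun w =>
    - ∑ i ∈ Finset.range (M w), C ((g w).coeff i) * X w ^ i
  have hQ : ∀ w, (Q w).totalDegree < M w := by
    intro w
    rw [totalDegree_neg]
    refine lt_of_le_of_lt (totalDegree_finsetSum_le (d := M w - 1) fun i hi => ?_)
      (Nat.sub_lt (hM w) one_pos)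
    have h1 := (isHomogeneous_C_mul_X_pow ((g w).coeff i) w i).totalDegree_le
    have h2 := Finset.mem_range.1 hi
    omega
  have hz : ∀ w, z w ^ M w = aeval z (Q w) := by
    intro w
    have h1 := hgr w
    rw [Polynomial.aeval_eq_sum_range, Finset.sum_range_succ, hgd] at h1
    have h2 : (g w).coeff (M w) = 1 := by
      rw [← hgd]
      exact hgm w
    rw [h2, one_smul] at h1
    simp only [Q, map_neg, map_sum, map_mul, map_pow, aeval_X]
    rw [eq_neg_iff_add_eq_zero, add_comm, ← h1]
    congr 1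
    refine Finset.sum_congr rfl fun i _ => ?_
    rw [Algebra.smul_def, algHom_C]
  obtain ⟨S, hS, hcard, hmem⟩ := span_bound z M Q hQ hz
  have hsub : Set.range ρ ⊆ S := by
    rintro _ ⟨⟨x, hx⟩, rfl⟩
    have h1 : ∃ P : MvPolynomial W (ZMod p), aeval z P = ρ ⟨x, hx⟩ := by
      induction hx using Subring.closure_induction with
      | mem x hx => exact ⟨X ⟨x, hx⟩, by rw [aeval_X]⟩
      | zero => exact ⟨0, by rw [map_zero]; exact (map_zero ρ).symm⟩
      | one => exact ⟨1, by rw [map_one]; exact (map_one ρ).symm⟩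
      | add x y hx hy h1 h2 =>
        obtain ⟨P, hP⟩ := h1
        obtain ⟨P', hP'⟩ := h2
        exact ⟨P + P', by rw [map_add, hP, hP', ← map_add]; rfl⟩
      | neg x hx h1 =>
        obtain ⟨P, hP⟩ := h1
        exact ⟨-P, by rw [map_neg, hP, ← map_neg]; rfl⟩
      | mul x y hx hy h1 h2 =>
        obtain ⟨P, hP⟩ := h1
        obtain ⟨P', hP'⟩ := h2
        exact ⟨P * P', by rw [map_mul, hP, hP', ← map_mul]; rfl⟩
    obtain ⟨P, hP⟩ := h1
    rw [← hP]
    exact hmem P
  refine ⟨hS.subset hsub, (Set.ncard_le_ncard hsub hS).trans (hcard.trans ?_)⟩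
  rw [Nat.card_zmod]
  refine Nat.pow_le_pow_right hp.out.pos (Finset.prod_le_prod' fun w _ => ?_)
  exact Polynomial.natDegree_map_le

end Pool.Agent.Q212.HD
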